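import Pool.Agent.H91.RD.Targets2

/-!
Module RSC: rescaling of classical solutions.
-/

set_option autoImplicit false

open MeasureTheory Set Filter Topology Metric
open Pool.Agent.H91.RD

namespace Pool.Agent.H58.RD

lemma rs_eq (a b x : ℝ) (hab : a < b) : a + (b - a) * ((x - a) / (b - a)) = x := by
  have : b - a ≠ 0 := (sub_pos.2 hab).ne'
  field_simp
  ring

lemma resc_apply (f : ℝ → ℝ) (a b x : ℝ) (hab : a < b) :
    resc f a b ((x - a) / (b - a)) = (b - a)⁻¹ * f x := by
  unfold resc
  rw [rs_eq a b x hab]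

theorem rsc : T_RSC := by
  intro N f a b u hab hu
  have hd : 0 < b - a := sub_pos.2 hab
  obtain ⟨M, hM⟩ := hu.bdd
  have hfun : ∀ t, (fun x => (u t x - a) / (b - a)) =
      (b - a)⁻¹ • (u t - fun _ => a) := by
    intro t
    funext x
    simp only [Pi.smul_apply, Pi.sub_apply, smul_eq_mul]
    rw [div_eq_inv_mul]
  refine ⟨⟨(M + |a|) / (b - a), fun t ht x => ?_⟩, fun t ht => ?_, fun t ht x => ?_, ?_,
    fun t ht x => ?_⟩
  · rw [abs_div, abs_of_pos hd]
    apply div_le_div_of_nonneg_right _ hd.le
    exact (abs_sub _ _).trans (add_le_add (hM t ht x) le_rfl)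
  · exact ((hu.c2 t ht).sub contDiff_const).div_const _
  · exact ((hu.dt t ht x).sub_const a).div_const _
  · exact (hu.cont.sub continuousOn_const).div_const _
  · have e1 : deriv (fun s => (u s x - a) / (b - a)) t =
        deriv (fun s => u s x) t / (b - a) := by
      rw [deriv_div_const, deriv_sub_const]
    have e2 : Laplacian.laplacian (fun x => (u t x - a) / (b - a)) x =
        (b - a)⁻¹ * Laplacian.laplacian (u t) x := by
      rw [hfun t]
      have h1 : ContDiffAt ℝ 2 (u t) x := (hu.c2 t ht).contDiffAt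
      have h2 : ContDiffAt ℝ 2 (fun _ : E N => a) x := contDiffAt_const
      have h3 : ContDiffAt ℝ 2 (u t - fun _ => a) x := h1.sub h2
      rw [InnerProductSpace.laplacian_smul _ h3, h1.laplacian_sub h2]
      simp
    rw [e1, e2, resc_apply f a b _ hab, hu.eqn t ht x]
    field_simp

end Pool.Agent.H58.RD
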