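import Pool.Agent.H91.RD.Targets2
import Pool.Agent.H58.RD.RSC

/-!
Module FACTG: the geometric facts for one level of a terrace.
-/

set_option autoImplicit false

open MeasureTheory Set Filter Topology Metric
open Pool.Agent.H91.RD

namespace Pool.Agent.H58.RD

lemma cls_of_solM {N : ℕ} {f : ℝ → ℝ} {U : Set (E N)} {u : ℝ → E N → ℝ} (h : SolM f U u) :
    Cls f u :=
  ⟨h.sol.bdd, h.sol.c2, h.sol.dt, h.sol.cont, h.sol.eqn⟩

lemma rng_of_solM {N : ℕ} {f : ℝ → ℝ} {U : Set (E N)} {u : ℝ → E N → ℝ} (h : SolM f U u) :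
    ∀ t > 0, ∀ x, 0 ≤ u t x ∧ u t x ≤ 1 := by
  intro t ht x
  have h1 := h.rng t (le_of_lt ht) x
  unfold lift0 at h1
  rwa [if_neg (not_le.2 ht)] at h1

lemma resc_lip {f : ℝ → ℝ} {K a b : ℝ} (hab : a < b) (hf : Lip f K) :
    ∀ x y, |resc f a b x - resc f a b y| ≤ K * |x - y| := by
  intro x y
  have hd : 0 < b - a := sub_pos.2 hab
  unfold resc
  rw [← mul_sub, abs_mul, abs_of_pos (inv_pos.2 hd)]
  have h1 := hf.lip (a + (b - a) * x) (a + (b - a) * y)
  have h2 : a + (b - a) * x - (a + (b - a) * y) = (b - a) * (x - y) := by ring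
  rw [h2, abs_mul, abs_of_pos hd] at h1
  calc (b - a)⁻¹ * |f (a + (b - a) * x) - f (a + (b - a) * y)|
      ≤ (b - a)⁻¹ * (K * ((b - a) * |x - y|)) :=
        mul_le_mul_of_nonneg_left h1 (inv_pos.2 hd).le
    _ = K * |x - y| := by field_simp

/-- positivity of `f` on `[a + θ (b - a), b)` -/
lemma pos_level {f φ : ℝ → ℝ} {a b c K k μ η0 θ lam : ℝ} (hL : Lev f a b c φ K k μ η0 θ lam) :
    ∀ s, a + θ * (b - a) ≤ s → s < b → 0 < f s := by
  intro s hs1 hs2
  have hd : 0 < b - a := sub_pos.2 hL.ab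
  have h1 : θ ≤ (s - a) / (b - a) := by
    rw [le_div_iff₀ hd]
    linarith
  have h2 : (s - a) / (b - a) < 1 := by
    rw [div_lt_one hd]
    linarith
  have h3 := hL.hyp.high _ h1 h2
  unfold rcut at h3
  rw [if_pos ⟨hL.hyp.th0.le.trans h1, h2.le⟩, resc_apply f a b s hL.ab] at h3
  exact pos_of_mul_pos_right h3 (inv_pos.2 hd).le

/-- a slightly smaller threshold -/
lemma exists_threshold {f : ℝ → ℝ} {K t b : ℝ} (hf : Lip f K) (ht : 0 < t) (htb : t < b)
    (hpos : ∀ s, t ≤ s → s < b → 0 < f s) :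
    ∃ t', 0 < t' ∧ t' < t ∧ ∀ s, t' ≤ s → s < b → 0 < f s := by
  have hK := hf.K0
  have hft := hpos t le_rfl htb
  refine ⟨max (t / 2) (t - f t / (2 * K)), ?_, ?_, ?_⟩
  · exact lt_max_of_lt_left (by linarith)
  · apply max_lt (by linarith)
    have : 0 < f t / (2 * K) := by positivity
    linarith
  · intro s hs1 hs2
    rcases le_or_gt t s with h | h
    · exact hpos s h hs2
    · have h1 : t - f t / (2 * K) ≤ s := (le_max_right _ _).trans hs1
      have h2 := hf.lip t s
      rw [abs_of_pos (sub_pos.2 h)] at h2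
      have h3 := le_abs_self (f t - f s)
      have h4 : K * (t - s) ≤ K * (f t / (2 * K)) :=
        mul_le_mul_of_nonneg_left (by linarith) hK.le
      have h5 : K * (f t / (2 * K)) = f t / 2 := by field_simp
      linarith

lemma exp_small {A d r : ℝ} (hA : 0 < A) (hr : 0 < r) (hd : A / r ≤ d) :
    A * Real.exp (-d) < r := by
  have h0 : 0 < A / r := by positivity
  have hd0 : 0 < d := by linarith
  have h1 : d + 1 ≤ Real.exp d := Real.add_one_le_exp d
  have h2 : A ≤ d * r := (div_le_iff₀ hr).1 hd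
  rw [Real.exp_neg, ← div_eq_mul_inv, div_lt_iff₀ (Real.exp_pos d)]
  nlinarith

theorem factg (h3 : T_IGN) (h4 : T_NPG) (h5 : T_TBG) (h6 : T_GT) : T_FACTG := by
  intro N f φ a b c K k μ η0 θ lam ρ U u hN hL hLow hUp hρ hinv hcore hC hU hu δ hδ
  have hab := hL.ab
  have ha := hL.a0
  have hb1 := hL.b1
  have hd : 0 < b - a := sub_pos.2 hab
  have hb : 0 < b := by linarith
  have hc : 0 < c := hL.hyp.front.cpos
  have hcls := cls_of_solM hu
  have hrng := rng_of_solM hu
  obtain ⟨η, R0, K3, s0, hη, hηδ, hR0, hK3, hs0, hexp⟩ :=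
    hLow (min δ (min ((b - a) / 4) (b / 2)))
      (lt_min hδ (lt_min (by linarith) (by linarith)))
  have hη4 : η ≤ (b - a) / 4 := hηδ.trans ((min_le_right _ _).trans (min_le_left _ _))
  have hηb : η ≤ b / 2 := hηδ.trans ((min_le_right _ _).trans (min_le_right _ _))
  have hR0' : 0 < R0 := by linarith
  have hexp' := hexp u hcls hrng
  -- expansion
  set C1 := max s0 (K3 + R0) with hC1
  have hC1s : s0 ≤ C1 := le_max_left _ _
  have hC1K : K3 + R0 ≤ C1 := le_max_right _ _
  have hE : ∀ C t3, C1 ≤ C → 0 < t3 → Expd c C t3 (ig u (b - η) R0) := by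
    intro C t3 hC ht3 t ht s hs x hx y hy y' hy'
    have hs1 : 1 ≤ s := by linarith
    have hq : 1 ≤ √s := Real.one_le_sqrt.2 hs1
    refine hexp' t (by linarith) x hx s (by linarith) y' ?_
    have e1 : dist x y' ≤ dist x y + R0 := by
      have := dist_triangle x y y'
      rw [mem_closedBall, dist_comm] at hy'
      linarith
    have e2 : (K3 + R0) * √s ≤ C * √s := mul_le_mul_of_nonneg_right (by linarith) (by linarith)
    have e3 : R0 * 1 ≤ R0 * √s := mul_le_mul_of_nonneg_left hq hR0'.le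
    have e4 : (K3 + R0) * √s = K3 * √s + R0 * √s := by ring
    linarith
  obtain ⟨⟨D, hD0, hD⟩, hign⟩ := h3 N f K ρ U u hL.toLip hρ hinv hcore hu
  obtain ⟨t1, ht1, hign1⟩ := hign η hη R0 hR0'
  set C2 := max C1 D with hC2
  have hC2C : C1 ≤ C2 := le_max_left _ _
  have hC2D : D ≤ C2 := le_max_right _ _
  have hup : ∀ C, C2 ≤ C → ∀ t ≥ t1, ∀ y ∈ U, ∃ p ∈ ig u (b - η) R0 t, dist y p ≤ C := by
    intro C hC t ht y hy
    obtain ⟨p, hp, hp2⟩ := hD y hy
    refine ⟨p, fun z hz => ?_, by linarith⟩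
    have := hign1 t ht hp z hz
    linarith
  -- threshold
  have hθ0 := hL.hyp.th0
  have hθ1 := hL.hyp.th1
  have hθd : 0 < θ * (b - a) := mul_pos hθ0 hd
  have hθd1 : θ * (b - a) < 1 * (b - a) := mul_lt_mul_of_pos_right hθ1 hd
  have hθb : a + θ * (b - a) < b := by linarith
  obtain ⟨θ', hθ'0, hθ'1, hθ'pos⟩ :=
    exists_threshold hL.toLip (show 0 < a + θ * (b - a) by linarith) hθb (pos_level hL)
  have hC2one : 1 ≤ C2 := by linarith
  obtain ⟨L0, S, T, hL0, hS, hT, hnp⟩ := h4 N f K b c (a + θ * (b - a)) θ' U u hN hL.toLip hc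
    hθ'0 hθ'1 hθb hb1 hθ'pos hU hC hu η R0 C2 t1 hη (by linarith) hR0' hC2one ht1
    (hE C2 t1 hC2C ht1) (hup C2 le_rfl t1 le_rfl)
  obtain ⟨CT, T', hCT, hTT', htl⟩ := h5 N (rcut f a b) (resc f a b) φ c lam K k μ η0 θ U
    (fun t x => (u t x - a) / (b - a)) (ig u (b - η) R0) hN hL.hyp (resc_lip hab hL.toLip)
    (fun s hs => by unfold rcut; rw [if_pos hs]) hU (rsc N f a b u hab hcls)
    (fun T hT Λ hΛ => by
      obtain ⟨A, hA, hA2⟩ := h6 N f K U u hL.toLip hu hU T hT Λ hΛ
      refine ⟨A / (b - a), by positivity, fun y => ?_⟩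
      have e1 := hA2 y
      rw [div_mul_eq_mul_div]
      apply div_le_div_of_nonneg_right _ hd.le
      linarith)
    C2 t1 L0 S T hC2one ht1 (hE C2 t1 hC2C ht1) (hup C2 le_rfl t1 le_rfl) hL0 hS hT
    (fun t ht y hy => by
      have e1 := hnp t ht y hy
      show (u t y - a) / (b - a) ≤ θ
      rw [div_le_iff₀ hd]
      linarith)
  obtain ⟨K5, hK5, hp2⟩ := hUp CT ((b - a) / 2) hCT (by linarith)
  have hp2' := hp2 u hcls hrng
  have ht3 : 0 < T' := by linarith
  obtain ⟨A, hA, hA2⟩ := h6 N f K U u hL.toLip hu hU T' ht3 1 one_pos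
  set C := max (max C2 CT) (max K5 (A / (b / 2))) with hCd
  have c1 : C2 ≤ C := (le_max_left _ _).trans (le_max_left _ _)
  have c2 : CT ≤ C := (le_max_right _ _).trans (le_max_left _ _)
  have c3 : K5 ≤ C := (le_max_left _ _).trans (le_max_right _ _)
  have c4 : A / (b / 2) ≤ C := (le_max_right _ _).trans (le_max_right _ _)
  have hne : ∀ t ≥ T', (ig u (b - η) R0 t).Nonempty := by
    intro t ht
    obtain ⟨y, hy⟩ := hU
    obtain ⟨p, hp, -⟩ := hup C2 le_rfl t (by linarith) y hy
    exact ⟨p, hp⟩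
  have hut : ∀ t ≥ T', ∀ x, u t x ≤ a + CT * Real.exp (-(c / 2 * infDist x (ig u (b - η) R0 t))) := by
    intro t ht x
    have e1 : (u t x - a) / (b - a) ≤ CT * Real.exp (-(c / 2 * infDist x (ig u (b - η) R0 t))) :=
      htl t ht x
    rw [div_le_iff₀ hd] at e1
    have e2 : 0 ≤ CT * Real.exp (-(c / 2 * infDist x (ig u (b - η) R0 t))) :=
      mul_nonneg (by linarith) (Real.exp_pos _).le
    have e3 : CT * Real.exp (-(c / 2 * infDist x (ig u (b - η) R0 t))) * (b - a) ≤
        CT * Real.exp (-(c / 2 * infDist x (ig u (b - η) R0 t))) * 1 :=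
      mul_le_mul_of_nonneg_left (by linarith) e2
    linarith
  refine ⟨η, R0, C, T', hη, hηδ.trans (min_le_left _ _), hR0', ?_, ?_⟩
  · refine ⟨hc, by linarith, ht3, hU, hne, hE C T' (by linarith) ht3, ?_, ?_, ?_⟩
    · -- back
      intro t ht s hs y hy
      rcases hs.eq_or_lt with h0 | h0
      · subst h0
        rw [add_zero] at hy
        refine ⟨y, hy, ?_⟩
        rw [dist_self, Real.sqrt_zero]
        linarith
      · have hG : infDist y (ig u (b - η) R0 t) < c * s + K5 * (1 + √s) := by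
          by_contra hcon
          push Not at hcon
          have e1 := hp2' t (by linarith) y s h0 _ hcon (fun y' => by
            refine (hut t ht y').trans ?_
            apply add_le_add le_rfl
            apply mul_le_mul_of_nonneg_left _ (by linarith)
            apply Real.exp_le_exp.2
            have e2 : infDist y (ig u (b - η) R0 t) ≤ infDist y' (ig u (b - η) R0 t) + dist y y' :=
              infDist_le_infDist_add_dist
            rw [dist_comm] at e2
            have e3 : c / 2 * (infDist y (ig u (b - η) R0 t) - dist y' y) ≤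
                c / 2 * infDist y' (ig u (b - η) R0 t) :=
              mul_le_mul_of_nonneg_left (by linarith) (by positivity)
            linarith)
          have e2 := hy y (mem_closedBall_self hR0'.le)
          linarith
        obtain ⟨x, hx, hxy⟩ := (infDist_lt_iff (hne t ht)).1 hG
        refine ⟨x, hx, ?_⟩
        rw [dist_comm] at hxy
        have hq : 0 ≤ √s := Real.sqrt_nonneg s
        have e5 : K5 * (1 + √s) ≤ C * (1 + √s) :=
          mul_le_mul_of_nonneg_right c3 (by linarith)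
        linarith
    · exact hup C c1 T' (by linarith)
    · -- down
      intro p hp
      have hlt : infDist p U < A / (b / 2) := by
        by_contra hcon
        push Not at hcon
        have e1 := hA2 p
        rw [one_mul] at e1
        have e2 := exp_small hA (show 0 < b / 2 by linarith) hcon
        have e3 := hp p (mem_closedBall_self hR0'.le)
        linarith
      obtain ⟨y, hy, hpy⟩ := (infDist_lt_iff hU).1 hlt
      exact ⟨y, hy, by linarith⟩
  · intro t ht x
    refine (htl t ht x).trans ?_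
    exact mul_le_mul_of_nonneg_right c2 (Real.exp_pos _).le

end Pool.Agent.H58.RD
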