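import Pool.Agent.H91.RD.Targets2
import Pool.Agent.H46.RD.Facts

/-!
Module GT: Gaussian tails at fixed times.
-/

set_option autoImplicit false

open MeasureTheory Set Filter Topology Metric
open Pool.Agent.H91.RD

namespace Pool.Agent.H58.RD

lemma gauss_exp (Λ T r : ℝ) (hT : 0 < T) :
    Real.exp (-((1 - 1 / 2) * r ^ 2 / (4 * T))) ≤
      Real.exp (2 * Λ ^ 2 * T) * Real.exp (-(Λ * r)) := by
  rw [← Real.exp_add]
  apply Real.exp_le_exp.2
  have h1 : (1 - 1 / 2) * r ^ 2 / (4 * T) - Λ * r + 2 * Λ ^ 2 * T =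
      (r - 4 * Λ * T) ^ 2 / (8 * T) := by
    field_simp
    ring
  have h2 : 0 ≤ (r - 4 * Λ * T) ^ 2 / (8 * T) := by positivity
  linarith

theorem gt (h6 : T_CMP) (h7 : T_TAIL) : T_GT := by
  intro N f K U u hf hu _ T hT Λ _
  refine ⟨Real.exp (K * T) * ((1 / 2 : ℝ) ^ (-(N : ℝ) / 2) * Real.exp (2 * Λ ^ 2 * T)),
    by positivity, fun y => ?_⟩
  have h1 := Pool.Agent.H46.RD.far_small h6 h7 hf hu hT y (r := infDist y U) infDist_nonneg
    (fun z hz hzU => by
      have := infDist_le_dist_of_mem (x := y) hzU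
      linarith)
  refine h1.trans ?_
  rw [mul_assoc, mul_assoc]
  apply mul_le_mul_of_nonneg_left _ (Real.exp_pos _).le
  apply mul_le_mul_of_nonneg_left (gauss_exp Λ T _ hT)
  positivity

end Pool.Agent.H58.RD
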